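import Pool.Agent.X308.D.Defs

/-!
# Push-forward on étale motivic cohomology in weight the dimension: definitions
-/

set_option autoImplicit false

open CategoryTheory AlgebraicGeometry
open Pool.Agent.X308.D

universe v

namespace Pool.Agent.X308.L

/-- Push-forward maps: for a morphism `X → Y` of proper regular connected arithmetic schemes of
dimensions `d` and `e`, maps `H^(2d+j)(X_et, ℤ(d)) → H^(2e+j)(Y_et, ℤ(e))`. -/
structure PushForward (M : MotivicData.{v}) where
  /-- the push-forward map -/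
  push : ∀ {X Y : Scheme.{0}}, (X ⟶ Y) → ∀ (d e : ℕ) (j : ℤ),
    M.Het X (2 * d + j) d →+ M.Het Y (2 * e + j) e

/-- The push-forward maps are functorial. -/
structure IsFunctorial {M : MotivicData.{v}} (P : PushForward M) : Prop where
  push_id : ∀ (d : ℕ) (X : Scheme.{0}), IsArithmetic X d → ∀ (j : ℤ)
    (a : M.Het X (2 * d + j) d), P.push (𝟙 X) d d j a = a
  push_comp : ∀ (c d e : ℕ) (X Y Z : Scheme.{0}) (f : X ⟶ Y) (g : Y ⟶ Z), IsArithmetic X c →
    IsArithmetic Y d → IsArithmetic Z e → ∀ (j : ℤ) (a : M.Het X (2 * c + j) c),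
      P.push (f ≫ g) c e j a = P.push g d e j (P.push f c d j a)

/-- The projective line over a proper regular connected arithmetic scheme `X` of dimension `d` is a
scheme `Y` of the same kind and of dimension `d + 1`, and it has a section. -/
def ProjectiveLine : Prop :=
  ∀ (d : ℕ) (X : Scheme.{0}), IsArithmetic X d → ∃ (Y : Scheme.{0}) (p : Y ⟶ X) (s : X ⟶ Y),
    IsArithmetic Y (d + 1) ∧ s ≫ p = 𝟙 X

/-- For all `X`, with `d` the dimension, `H^i(X_et, ℤ(d))` is finitely generated in the degrees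
`2d - w(d) ≤ i ≤ 2d`. -/
def FiniteGenerationInWindow (M : MotivicData.{v}) (w : ℕ → ℕ) : Prop :=
  ∀ (d : ℕ) (X : Scheme.{0}), IsArithmetic X d → ∀ i : ℤ, 2 * (d : ℤ) - w d ≤ i → i ≤ 2 * d →
    AddGroup.FG (M.Het X i d)

/-- The function `w` takes arbitrarily large values. -/
def IsUnbounded (w : ℕ → ℕ) : Prop := ∀ d m : ℕ, ∃ e : ℕ, d ≤ e ∧ m ≤ w e

end Pool.Agent.X308.L
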