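import Pool.Agent.X308.L.Defs
import Pool.Agent.X308.D.Main

/-!
# Finite generation in degrees `0 ≤ i ≤ 2d` implies finite generation in all degrees `i ≤ 2d`
-/

set_option autoImplicit false

open CategoryTheory AlgebraicGeometry
open Pool.Agent.X308.D

universe v

namespace Pool.Agent.X308.L

variable {M : MotivicData.{v}}

lemma fg_subgroup {A B : Type v} [AddCommGroup A] [AddCommGroup B] (f : A →+ B)
    (hf : Function.Injective f) (hB : AddGroup.FG B) : AddGroup.FG A := by
  have h1 : Module.Finite ℤ B := Module.Finite.iff_addGroup_fg.2 hB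
  have h2 : Module.Finite ℤ A := Module.Finite.of_injective f.toIntLinearMap hf
  exact Module.Finite.iff_addGroup_fg.1 h2

/-- The group of `X` embeds into the group of a projective space over `X`. -/
lemma exists_embedding {P : PushForward M} (hP : IsFunctorial P) (hL : ProjectiveLine) (r : ℕ) :
    ∀ (d : ℕ) (X : Scheme.{0}), IsArithmetic X d → ∃ Y : Scheme.{0}, IsArithmetic Y (d + r) ∧
      ∀ j : ℤ, ∃ s : M.Het X (2 * d + j) d →+ M.Het Y (2 * ((d + r : ℕ) : ℤ) + j) ((d + r : ℕ) : ℤ),
        Function.Injective s := by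
  induction r with
  | zero =>
    intro d X hX
    exact ⟨X, hX, fun j => ⟨AddMonoidHom.id _, fun a b h => h⟩⟩
  | succ r ih =>
    intro d X hX
    obtain ⟨Y, hY, h1⟩ := ih d X hX
    obtain ⟨Z, p, s, hZ, hsp⟩ := hL (d + r) Y hY
    refine ⟨Z, hZ, fun j => ?_⟩
    obtain ⟨f, hf⟩ := h1 j
    have hinj : Function.Injective (P.push s (d + r) (d + r + 1) j) := by
      intro a b hab
      have h2 := hP.push_comp _ _ _ Y Z Y s p hY hZ hY j a
      have h3 := hP.push_comp _ _ _ Y Z Y s p hY hZ hY j b
      rw [hsp, hP.push_id _ Y hY] at h2 h3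
      rw [h2, h3, hab]
    exact ⟨(P.push s (d + r) (d + r + 1) j).comp f, hinj.comp hf⟩

theorem fg_of_window {P : PushForward M} (hP : IsFunctorial P) (hL : ProjectiveLine) (w : ℕ → ℕ)
    (hw : IsUnbounded w) (h : FiniteGenerationInWindow M w) : FiniteGeneration M := by
  intro d X hX i hi
  obtain ⟨j, rfl⟩ : ∃ j : ℤ, i = 2 * d + j := ⟨i - 2 * d, by ring⟩
  obtain ⟨e, hde, hwe⟩ := hw d (-j).toNat
  obtain ⟨r, rfl⟩ : ∃ r : ℕ, e = d + r := ⟨e - d, by omega⟩
  obtain ⟨Y, hY, h1⟩ := exists_embedding hP hL r d X hX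
  obtain ⟨s, hs⟩ := h1 j
  exact fg_subgroup s hs (h (d + r) Y hY _ (by omega) (by omega))

theorem window_of_fg (h : FiniteGeneration M) (w : ℕ → ℕ) : FiniteGenerationInWindow M w :=
  fun d X hX i _ hi => h d X hX i hi

theorem window_of_nonneg (h : FiniteGenerationNonneg M) :
    FiniteGenerationInWindow M fun d => 2 * d :=
  fun d X hX i h1 h2 => h d X hX i (by push_cast at h1; omega) h2

lemma isUnbounded_double : IsUnbounded fun d => 2 * d :=
  fun d m => ⟨d + m, by omega, by dsimp only; omega⟩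

/-- **Finite generation in the degrees `0 ≤ i ≤ 2d`** for all `X` implies it in all degrees
`i ≤ 2d`. -/
theorem nonneg_iff {P : PushForward M} (hP : IsFunctorial P) (hL : ProjectiveLine) :
    FiniteGenerationNonneg M ↔ FiniteGeneration M :=
  ⟨fun h => fg_of_window hP hL _ isUnbounded_double (window_of_nonneg h),
    fun h d X hX i _ hi => h d X hX i hi⟩

theorem window_iff {P : PushForward M} (hP : IsFunctorial P) (hL : ProjectiveLine) (w : ℕ → ℕ)
    (hw : IsUnbounded w) : FiniteGenerationNonneg M ↔ FiniteGenerationInWindow M w :=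
  ⟨fun h => window_of_fg ((nonneg_iff hP hL).1 h) w,
    fun h => (nonneg_iff hP hL).2 (fg_of_window hP hL w hw h)⟩

/-- The consequences in negative degrees. -/
theorem vanishing {P : PushForward M} (hP : IsFunctorial P) (hL : ProjectiveLine)
    (hK : KnownProperties M) (h : FiniteGenerationNonneg M) :
    VanishingOnSchemes M ∧ VanishingOnFields M ∧ VanishingForRationalFunctions M := by
  have h1 := (nonneg_iff hP hL).1 h
  have h2 : FiniteGenerationNeg M := fun d X hX i hi => h1 d X hX i (by omega)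
  have h3 := neg_iff hK
  exact ⟨(h3.out 0 1).1 h2, (h3.out 0 2).1 h2, (h3.out 0 4).1 h2⟩

end Pool.Agent.X308.L
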